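import Pool.Agent.Run7.h205.GM.Pts

/-!
# Tuples of transcendence degree `n - 1`, and polynomials in `π`
-/

set_option autoImplicit false

namespace Pool.Agent.Run7.h205.GM

open Complex Module

/-- the field generated by the `u i` -/
noncomputable def Fld {n : ℕ} (u : Fin n → ℂ) : IntermediateField ℚ ℂ := IntermediateField.adjoin ℚ (Set.range u)

/-- the inequality of the conjecture for the tuple `u` -/
def Good {n : ℕ} (u : Fin n → ℂ) : Prop :=
  (n : Cardinal) ≤ Algebra.trdeg ℚ
    (IntermediateField.adjoin ℚ (Set.range u ∪ Set.range fun i => Complex.Gamma (u i)))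

theorem good_of_trans {n : ℕ} {u : Fin n → ℂ} (h : ((n - 1 : ℕ) : Cardinal) ≤ Algebra.trdeg ℚ (Fld u)) {i : Fin n}
    (hi : Transcendental (Fld u) (Complex.Gamma (u i))) : Good u := by
  obtain ⟨s, hs⟩ := exists_isTranscendenceBasis ℚ (Fld u)
  have hcard := hs.cardinalMk_eq_trdeg
  have h1 : AlgebraicIndependent ℚ (fun x : s => ((x : Fld u) : ℂ)) :=
    hs.1.map' (f := (Fld u).val) (Fld u).val.injective
  have h2 : Transcendental (Algebra.adjoin ℚ (Set.range fun x : s => ((x : Fld u) : ℂ))) (Complex.Gamma (u i)) := by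
    intro halg
    apply hi
    have hle : Algebra.adjoin ℚ (Set.range fun x : s => ((x : Fld u) : ℂ)) ≤ (Fld u).toSubalgebra := by
      rw [Algebra.adjoin_le_iff]
      rintro _ ⟨x, rfl⟩
      exact (x : Fld u).2
    obtain ⟨p, hp, hpe⟩ := halg
    refine ⟨p.map (Subalgebra.inclusion hle).toRingHom, ?_, ?_⟩
    · intro h0
      apply hp
      exact (Polynomial.map_eq_zero_iff (Subalgebra.inclusion_injective hle)).1 h0
    · rw [Polynomial.aeval_def, Polynomial.eval₂_map]
      rw [Polynomial.aeval_def] at hpe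
      exact hpe
  have h3 := (h1.option_iff_transcendental (Complex.Gamma (u i))).2 h2
  set E := IntermediateField.adjoin ℚ (Set.range u ∪ Set.range fun i => Complex.Gamma (u i)) with hE
  have hmem : ∀ o : Option s, (o.elim (Complex.Gamma (u i)) fun x : s => ((x : Fld u) : ℂ)) ∈ E := by
    intro o
    cases o with
    | none => exact IntermediateField.subset_adjoin _ _ (Or.inr ⟨i, rfl⟩)
    | some x =>
      have : Fld u ≤ E := IntermediateField.adjoin.mono _ _ _ (fun y hy => Or.inl hy)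
      exact this (x : Fld u).2
  have h4 : AlgebraicIndependent ℚ (fun o : Option s => (⟨_, hmem o⟩ : E)) :=
    AlgebraicIndependent.of_comp E.val h3
  have h5 := h4.cardinalMk_le_trdeg
  unfold Good
  refine le_trans ?_ h5
  rw [Cardinal.mk_option, hcard]
  have hn : n = (n - 1) + 1 := by
    have := i.2
    omega
  calc (n : Cardinal) = (((n - 1) + 1 : ℕ) : Cardinal) := by rw [← hn]
    _ = ((n - 1 : ℕ) : Cardinal) + 1 := by push_cast; rfl
    _ ≤ _ := by gcongr

/-- the closed field of a tuple -/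
noncomputable def Cf {n : ℕ} (u : Fin n → ℂ) : Subfield ℂ := CF (Fld u)

theorem mem_Cf {n : ℕ} (u : Fin n → ℂ) (i : Fin n) : u i ∈ Cf u := by
  apply mem_CF.2
  exact isAlgebraic_algebraMap (⟨u i, IntermediateField.subset_adjoin _ _ ⟨i, rfl⟩⟩ : Fld u)

theorem Fld_le {n : ℕ} {u z : Fin n → ℂ} (h : ∀ i, ∃ a b : ℚ, u i = a * z i + b) : Fld u ≤ Fld z := by
  unfold Fld
  rw [IntermediateField.adjoin_le_iff]
  rintro _ ⟨i, rfl⟩
  obtain ⟨a, b, hab⟩ := h i
  rw [hab]
  have h1 : z i ∈ IntermediateField.adjoin ℚ (Set.range z) := IntermediateField.subset_adjoin _ _ ⟨i, rfl⟩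
  exact add_mem (mul_mem (SubfieldClass.ratCast_mem _ a) h1) (SubfieldClass.ratCast_mem _ b)

theorem Fld_eq {n : ℕ} {u z : Fin n → ℂ} (h : ∀ i, ∃ a b : ℚ, a ≠ 0 ∧ u i = a * z i + b) : Fld u = Fld z := by
  apply le_antisymm
  · refine Fld_le fun i => ?_
    obtain ⟨a, b, _, hab⟩ := h i
    exact ⟨a, b, hab⟩
  · refine Fld_le fun i => ?_
    obtain ⟨a, b, ha, hab⟩ := h i
    refine ⟨a⁻¹, -(a⁻¹ * b), ?_⟩
    have ha' : (a : ℂ) ≠ 0 := by exact_mod_cast ha
    rw [hab]
    push_cast
    field_simp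
    ring

/-- **Tuples of transcendence degree `n - 1`.** -/
theorem half {n : ℕ} (z : Fin n → ℂ) (hz : ∀ i, Irr (z i))
    (htr : ((n - 1 : ℕ) : Cardinal) ≤ Algebra.trdeg ℚ (IntermediateField.adjoin ℚ (Set.range z)))
    (hpi : Transcendental (IntermediateField.adjoin ℚ (Set.range z)) (Real.pi : ℂ)) :
    ∃ w : Fin n → ℂ, ∀ u v : Fin n → ℂ, (∀ i, u i ∈ Line (z i)) → (∀ i, v i = u i ∨ v i = -u i) →
      (∃ i, v i ≠ u i ∧ ¬ Same (w i) (u i)) → Good u ∨ Good v := by
  classical
  have hC : Clo (Cf z) := clo_CF _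
  have hpi' : (Real.pi : ℂ) ∉ Cf z := fun h => hpi (mem_CF.1 h)
  choose w hw using fun i => one_pair' hC hpi' (mem_Cf z i) (hz i)
  refine ⟨w, fun u v hu hv hex => ?_⟩
  have hFu : Fld u = Fld z := Fld_eq fun i => by
    obtain ⟨a, b, ha, hab⟩ := hu i
    exact ⟨a, b, ha, hab⟩
  have hFv : Fld v = Fld z := Fld_eq fun i => by
    obtain ⟨a, b, ha, hab⟩ := hu i
    rcases hv i with h | h
    · exact ⟨a, b, ha, by rw [h, hab]⟩
    · exact ⟨-a, -b, neg_ne_zero.2 ha, by rw [h, hab]; push_cast; ring⟩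
  by_contra hcon
  rw [not_or] at hcon
  have hu2 : ∀ i, Complex.Gamma (u i) ∈ Cf z := by
    intro i
    by_contra hi
    apply hcon.1
    refine good_of_trans (u := u) (i := i) ?_ ?_
    · rw [hFu]
      exact htr
    · intro halg
      apply hi
      rw [hFu] at halg
      exact mem_CF.2 halg
  have hv2 : ∀ i, Complex.Gamma (v i) ∈ Cf z := by
    intro i
    by_contra hi
    apply hcon.2
    refine good_of_trans (u := v) (i := i) ?_ ?_
    · rw [hFv]
      exact htr
    · intro halg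
      apply hi
      rw [hFv] at halg
      exact mem_CF.2 halg
  obtain ⟨i, hi, hne⟩ := hex
  have hvi := (hv i).resolve_left hi
  refine hne (hw i (u i) (hu i) ⟨hu2 i, ?_⟩)
  have := hv2 i
  rwa [hvi] at this

/-- polynomials in `π` -/
theorem part3b (n : ℕ) {l : ℂ} (hl : IsAlgebraic ℚ l) (hl0 : l ≠ 0) :
    ∃ U : Submodule ℚ (Polynomial ℚ), (∀ P ∈ U, P.natDegree ≤ n) ∧ finrank ℚ U ^ 2 ≤ 4 * n + 1 ∧
      ∀ P : Polynomial ℚ, P.natDegree ≤ n → P ∉ U → ∀ b : ℚ,
      AlgebraicIndependent ℚ ![(Real.pi : ℂ), Complex.Gamma (l * Polynomial.aeval (Real.pi : ℂ) P + b)] ∨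
        AlgebraicIndependent ℚ ![(Real.pi : ℂ), Complex.Gamma (-(l * Polynomial.aeval (Real.pi : ℂ) P + b))] := by
  have hC := clo_acl (Real.pi : ℂ)
  have hpi := self_mem_acl (Real.pi : ℂ)
  have hpiI : (Real.pi * I * l : ℂ) ≠ 0 := by
    simp [Real.pi_ne_zero, hl0]
  let U : Submodule ℚ (Polynomial ℚ) :=
    { carrier := {P | P.natDegree ≤ n ∧ Complex.exp (Real.pi * I * l * Polynomial.aeval (Real.pi : ℂ) P) ∈
        acl (Real.pi : ℂ)}
      add_mem' := by
        rintro P Q ⟨h1, h2⟩ ⟨h3, h4⟩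
        refine ⟨(Polynomial.natDegree_add_le _ _).trans (max_le h1 h3), ?_⟩
        rw [map_add, mul_add, Complex.exp_add]
        exact (acl (Real.pi : ℂ)).mul_mem h2 h4
      zero_mem' := by
        refine ⟨by simp, ?_⟩
        rw [map_zero, mul_zero, Complex.exp_zero]
        exact (acl (Real.pi : ℂ)).one_mem
      smul_mem' := by
        rintro q P ⟨h1, h2⟩
        refine ⟨(Polynomial.natDegree_smul_le _ _).trans h1, ?_⟩
        have h3 := exp_rat_mem hC h2 q
        have e : (Real.pi * I * l * Polynomial.aeval (Real.pi : ℂ) (q • P) : ℂ) =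
            q * (Real.pi * I * l * Polynomial.aeval (Real.pi : ℂ) P) := by
          rw [map_smul, Algebra.smul_def]
          simp only [eq_ratCast]
          ring
        rw [e]
        exact h3 }
  refine ⟨U, fun P hP => hP.1, ?_, fun P hP hPU b => ?_⟩
  · refine Pool.Agent.W243.TD.fam1 (Real.pi : ℂ) (Real.pi * I * l) pi_trans hpiI ?_ n U (fun P hP => hP.1) ?_
    · show IsAlgebraic _ _
      exact mem_acl.1 ((acl _).mul_mem ((acl _).mul_mem hpi (I_mem hC)) (alg_mem hC hl))
    · intro P hP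
      show IsAlgebraic _ _
      exact mem_acl.1 hP.2
  · by_contra hcon
    rw [not_or] at hcon
    apply hPU
    refine ⟨hP, ?_⟩
    have h1 := dep_mem pi_trans hcon.1
    have h2 := dep_mem pi_trans hcon.2
    have hb := exp_pi_rat_mem hC b
    by_cases hirr : Irr (l * Polynomial.aeval (Real.pi : ℂ) P + b)
    · have hPm : Polynomial.aeval (Real.pi : ℂ) P ∈ acl (Real.pi : ℂ) := by
        rw [Polynomial.aeval_eq_sum_range]
        refine sum_mem fun i _ => ?_
        rw [Algebra.smul_def]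
        exact (acl _).mul_mem (SubfieldClass.ratCast_mem _ _) ((acl _).pow_mem hpi _)
      have h3 := exp_of_pair hC hirr ((acl _).add_mem ((acl _).mul_mem (alg_mem hC hl) hPm)
        (SubfieldClass.ratCast_mem _ b)) hpi h1 h2
      have h4 := (acl (Real.pi : ℂ)).mul_mem h3 ((acl (Real.pi : ℂ)).inv_mem hb)
      rw [← Complex.exp_neg, ← Complex.exp_add] at h4
      convert h4 using 2
      ring
    · unfold Irr at hirr
      push Not at hirr
      obtain ⟨q, hq⟩ := hirr
      have h3 := exp_pi_rat_mem hC q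
      rw [← hq] at h3
      have h4 := (acl (Real.pi : ℂ)).mul_mem h3 ((acl (Real.pi : ℂ)).inv_mem hb)
      rw [← Complex.exp_neg, ← Complex.exp_add] at h4
      convert h4 using 2
      ring

end Pool.Agent.Run7.h205.GM
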