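import Pool.Agent.Run7.h205.GM.Pts

/-!
# Several lines
-/

set_option autoImplicit false

namespace Pool.Agent.Run7.h205.GM

open Complex Module

theorem Pair.mono {C D : Subfield ℂ} (h : C ≤ D) {z : ℂ} (hp : Pair C z) : Pair D z := ⟨h hp.1, h hp.2⟩

/-- the exceptional space contains the points of a line with a pair in `C` -/
theorem line_mem_V {C : Subfield ℂ} (hC : Clo C) (hpi : (Real.pi : ℂ) ∈ C) {K : IntermediateField ℚ ℂ}
    {β : K} (hβ : IsAlgebraic ℚ (β : ℂ)) (hi : Irr (β : ℂ)) {z : ℂ} (hz : z ∈ Line (β : ℂ)) (hp : Pair C z) :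
    β ∈ V C hC K 1 := by
  have h1 := exp_of_pair hC (line_irr hi hz) (alg_mem hC (line_alg hβ hz)) hpi hp.1 hp.2
  obtain ⟨a, b, ha, hab⟩ := hz
  rw [mem_V]
  have ha' : (a : ℂ) ≠ 0 := by exact_mod_cast ha
  have h2 := C.mul_mem h1 (C.inv_mem (exp_pi_rat_mem hC b))
  rw [← Complex.exp_neg, ← Complex.exp_add] at h2
  have h3 := exp_rat_mem hC h2 a⁻¹
  convert h3 using 2
  rw [hab]
  push_cast
  field_simp
  ring

theorem one_mem_V {C : Subfield ℂ} (hC : Clo C) {K : IntermediateField ℚ ℂ} : (1 : K) ∈ V C hC K 1 := by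
  rw [mem_V]
  have := exp_pi_rat_mem hC 1
  simp only [Rat.cast_one, mul_one] at this
  simpa using this

/-- **Part 4.** -/
theorem part4 (K : IntermediateField ℚ ℂ) [FiniteDimensional ℚ K] {n : ℕ} (hn : 4 * finrank ℚ K + 1 < (n + 2) ^ 2)
    (β : Fin n → K) (hli : LinearIndependent ℚ (fun o : Option (Fin n) => o.elim (1 : K) β)) (i : Fin n) :
    ∃ z₀ : ℂ, ∀ z ∈ Line (β i : ℂ), ¬ Same z₀ z → ∃ w₀ : Fin n → ℂ, ∀ w : Fin n → ℂ, w i = z →
      (∀ j, j ≠ i → w j ∈ Line (β j : ℂ) ∧ ¬ Same (w₀ j) (w j)) →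
      ∃ j k, j ≠ k ∧ ∃ s t : ℂ, (s = w j ∨ s = -w j) ∧ (t = w k ∨ t = -w k) ∧
        AlgebraicIndependent ℚ ![Complex.Gamma s, Complex.Gamma t] := by
  classical
  have hcard := hli.fintype_card_le_finrank
  rw [Fintype.card_option, Fintype.card_fin] at hcard
  have hn2 : 2 ≤ n := by
    by_contra hlt
    have : n = 0 ∨ n = 1 := by omega
    rcases this with rfl | rfl
    · simp at hn
      omega
    · norm_num at hn
      omega
  have hirr : ∀ j, Irr (β j : ℂ) := by
    intro j q hq
    have h1 := (Fintype.linearIndependent_iff.1 hli) (fun o => o.elim q fun k => if k = j then -1 else 0) (by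
      rw [Fintype.sum_option]
      simp only [Option.elim, ite_smul, zero_smul, Finset.sum_ite_eq', Finset.mem_univ, if_true]
      apply Subtype.ext
      push_cast
      rw [Algebra.smul_def, Algebra.smul_def]
      push_cast
      simp [hq]) (some j)
    simp at h1
  have halg : ∀ j, IsAlgebraic ℚ (β j : ℂ) := fun j => K_alg (β j)
  choose e he using fun j => part1 (halg j) (hirr j)
  refine ⟨e i, fun z hz hne => ?_⟩
  -- a transcendental value at `± z`
  obtain ⟨s, hs, hst⟩ : ∃ s, (s = z ∨ s = -z) ∧ Transcendental ℚ (Complex.Gamma s) := by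
    rcases he i z hz hne with h | h
    · exact ⟨z, Or.inl rfl, h⟩
    · exact ⟨-z, Or.inr rfl, h⟩
  set C := acl (Complex.Gamma s) with hCdef
  have hC : Clo C := clo_acl _
  by_cases hpi : (Real.pi : ℂ) ∈ C
  · refine ⟨e, fun w hwi hw => ?_⟩
    by_contra hcon
    push Not at hcon
    -- all values at the other points are in `C`
    have h1 : ∀ j, j ≠ i → Pair C (w j) := by
      intro j hj
      have h2 : ∀ t, (t = w j ∨ t = -w j) → Complex.Gamma t ∈ C := by
        intro t ht
        exact dep_mem hst (hcon i j (Ne.symm hj) s t (by rw [hwi]; exact hs) ht)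
      exact ⟨h2 _ (Or.inl rfl), h2 _ (Or.inr rfl)⟩
    obtain ⟨j, hj⟩ : ∃ j : Fin n, j ≠ i := by
      have : Nontrivial (Fin n) := Fin.nontrivial_iff_two_le.2 hn2
      exact exists_ne i
    obtain ⟨t, ht, htt⟩ : ∃ t, (t = w j ∨ t = -w j) ∧ Transcendental ℚ (Complex.Gamma t) := by
      rcases he j (w j) (hw j hj).1 (hw j hj).2 with h | h
      · exact ⟨_, Or.inl rfl, h⟩
      · exact ⟨_, Or.inr rfl, h⟩
    have ht2 : Complex.Gamma t ∈ C := by
      rcases ht with rfl | rfl
      · exact (h1 j hj).1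
      · exact (h1 j hj).2
    have h3 : Pair C z := by
      have h4 : ∀ u, (u = w i ∨ u = -w i) → Complex.Gamma u ∈ C := by
        intro u hu
        exact acl_le hC ht2 (dep_mem htt (hcon j i hj t u ht hu))
      rw [← hwi]
      exact ⟨h4 _ (Or.inl rfl), h4 _ (Or.inr rfl)⟩
    -- all `β j` are in the exceptional space
    have h5 : ∀ j, β j ∈ V C hC K 1 := by
      intro j
      by_cases hji : j = i
      · subst hji
        exact line_mem_V hC hpi (halg j) (hirr j) hz h3
      · exact line_mem_V hC hpi (halg j) (hirr j) (hw j hji).1 (h1 j hji)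
    have h6 : LinearIndependent ℚ (fun o : Option (Fin n) => (⟨o.elim (1 : K) β, by
        cases o with
        | none => exact one_mem_V hC
        | some j => exact h5 j⟩ : V C hC K 1)) := by
      apply LinearIndependent.of_comp (V C hC K 1).subtype
      exact hli
    have h7 := h6.fintype_card_le_finrank
    rw [Fintype.card_option, Fintype.card_fin] at h7
    have h8 : (finrank ℚ (V C hC K 1) + 1) ^ 2 ≤ 4 * finrank ℚ K + 1 :=
      dim_V hst hpi K (l := 1) isAlgebraic_one one_ne_zero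
    have h9 : (n + 2) ^ 2 ≤ (finrank ℚ (V C hC K 1) + 1) ^ 2 := Nat.pow_le_pow_left (by omega) 2
    omega
  · choose f hf using fun j => one_pair hC hpi (halg j) (hirr j)
    refine ⟨f, fun w hwi hw => ?_⟩
    by_contra hcon
    push Not at hcon
    obtain ⟨j, hj⟩ : ∃ j : Fin n, j ≠ i := by
      have : Nontrivial (Fin n) := Fin.nontrivial_iff_two_le.2 hn2
      exact exists_ne i
    have h2 : ∀ t, (t = w j ∨ t = -w j) → Complex.Gamma t ∈ C := by
      intro t ht
      exact dep_mem hst (hcon i j (Ne.symm hj) s t (by rw [hwi]; exact hs) ht)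
    exact (hw j hj).2 (hf j (w j) (hw j hj).1 ⟨h2 _ (Or.inl rfl), h2 _ (Or.inr rfl)⟩)

end Pool.Agent.Run7.h205.GM
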