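import Pool.Agent.Run7.h205.GM.Base
import Pool.Agent.R260.LrA

/-!
# The multiplication formula at algebraic irrational points
-/

set_option autoImplicit false

namespace Pool.Agent.Run7.h205.GM

open Complex Filter Topology Set

/-- Gauss's multiplication formula for complex arguments, with the square of the constant up to an algebraic factor -/
theorem gauss_complex (m : ℕ) (hm : 0 < m) : ∃ C : ℝ, 0 < C ∧
    1 = C * (m : ℝ) * ∏ j ∈ Finset.range m, Real.Gamma ((1 + (j : ℝ)) / m) ∧ ∀ z : ℂ,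
    ∏ j ∈ Finset.range m, (Complex.Gamma ((z + j) / m))⁻¹ = C * (m : ℂ) ^ z * (Complex.Gamma z)⁻¹ := by
  obtain ⟨C, hC, h⟩ := Pool.Agent.R260.Lr.gauss m hm
  have hm0 : (m : ℂ) ≠ 0 := by exact_mod_cast hm.ne'
  refine ⟨C, hC, ?_, ?_⟩
  · have := h 1 one_pos
    rw [Real.Gamma_one, Real.rpow_one] at this
    exact this
  have h1 : AnalyticOnNhd ℂ (fun z : ℂ => ∏ j ∈ Finset.range m, (Complex.Gamma ((z + j) / m))⁻¹) univ := by
    refine DifferentiableOn.analyticOnNhd ?_ isOpen_univ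
    apply Differentiable.differentiableOn
    apply Differentiable.fun_finsetProd
    intro j _
    exact differentiable_one_div_Gamma.comp ((differentiable_id.add_const _).div_const _)
  have h2 : AnalyticOnNhd ℂ (fun z : ℂ => C * (m : ℂ) ^ z * (Complex.Gamma z)⁻¹) univ := by
    refine DifferentiableOn.analyticOnNhd ?_ isOpen_univ
    apply Differentiable.differentiableOn
    refine Differentiable.mul (Differentiable.mul (differentiable_const _) ?_) differentiable_one_div_Gamma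
    exact fun t => DifferentiableAt.const_cpow differentiableAt_id (Or.inl hm0)
  have h3 : Tendsto ((↑) : ℝ → ℂ) (𝓝[≠] 1) (𝓝[≠] 1) := by
    rw [tendsto_nhdsWithin_iff]; constructor
    · exact tendsto_nhdsWithin_of_tendsto_nhds continuous_ofReal.continuousAt
    · exact eventually_nhdsWithin_iff.mpr (Eventually.of_forall fun t ht => ofReal_ne_one.mpr ht)
  have key := AnalyticOnNhd.eq_of_frequently_eq h1 h2 (h3.frequently (by
    refine ((Eventually.filter_mono nhdsWithin_le_nhds) ?_).frequently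
    refine (eventually_gt_nhds zero_lt_one).mp (Eventually.of_forall fun t ht => ?_)
    have e := h t ht
    have ep : (0 : ℝ) < ∏ j ∈ Finset.range m, Real.Gamma ((t + j) / m) := by
      apply Finset.prod_pos
      intro j _
      exact Real.Gamma_pos_of_pos (by positivity)
    have eG := Real.Gamma_pos_of_pos ht
    have e1 : (∏ j ∈ Finset.range m, Real.Gamma ((t + j) / m))⁻¹ = C * (m : ℝ) ^ t * (Real.Gamma t)⁻¹ := by
      rw [inv_eq_iff_eq_inv, mul_inv, inv_inv, e]
      have : (m : ℝ) ^ t ≠ 0 := by positivity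
      field_simp
    have e2 := congrArg (fun x : ℝ => (x : ℂ)) e1
    simp only [ofReal_inv, ofReal_prod, ofReal_mul] at e2
    rw [Finset.prod_inv_distrib]
    rw [ofReal_cpow (by positivity)] at e2
    simp only [← Complex.Gamma_ofReal, ofReal_div, ofReal_add, ofReal_natCast] at e2
    exact e2))
  exact fun z => congrFun key z

theorem sin_rat_alg (q : ℚ) : IsAlgebraic ℚ (Real.sin (Real.pi * q)) := by
  have h1 : IsAlgebraic ℚ ((Real.sin (Real.pi * q) : ℝ) : ℂ) := by
    have h2 := sin_of_exp (clo_CF ℚ) (z := (q : ℂ)) (exp_pi_rat_mem (clo_CF ℚ) q)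
    have h3 := mem_CF.1 h2
    push_cast
    exact h3
  exact (isAlgebraic_algebraMap_iff (algebraMap ℝ ℂ).injective).1 h1

/-- the square of the product of the values at `j / m` -/
theorem prod_sq (m : ℕ) (hm : 0 < m) :
    IsAlgebraic ℚ ((∏ j ∈ Finset.range m, Real.Gamma ((1 + (j : ℝ)) / m)) ^ 2 / Real.pi ^ (m - 1)) := by
  obtain ⟨k, rfl⟩ : ∃ k, m = k + 1 := ⟨m - 1, by omega⟩
  rw [Finset.prod_range_succ]
  have e0 : (1 + (k : ℝ)) / ((k + 1 : ℕ) : ℝ) = 1 := by
    push_cast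
    rw [add_comm (1 : ℝ)]
    exact div_self (by positivity)
  rw [e0, Real.Gamma_one, mul_one, Nat.add_sub_cancel]
  have e1 : (∏ j ∈ Finset.range k, Real.Gamma ((1 + (j : ℝ)) / ((k + 1 : ℕ) : ℝ))) ^ 2 =
      ∏ j ∈ Finset.range k, (Real.pi / Real.sin (Real.pi * (((1 + j : ℕ) / (k + 1 : ℕ) : ℚ)))) := by
    rw [sq]
    nth_rewrite 2 [← Finset.prod_range_reflect]
    rw [← Finset.prod_mul_distrib]
    refine Finset.prod_congr rfl fun j hj => ?_
    rw [Finset.mem_range] at hj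
    have e2 : (1 + ((k - 1 - j : ℕ) : ℝ)) / ((k + 1 : ℕ) : ℝ) = 1 - (1 + (j : ℝ)) / ((k + 1 : ℕ) : ℝ) := by
      rw [Nat.sub_sub, Nat.cast_sub (by omega)]
      push_cast
      field_simp
      ring
    rw [e2, Real.Gamma_mul_Gamma_one_sub]
    push_cast
    rfl
  rw [e1, Finset.prod_div_distrib, Finset.prod_const, Finset.card_range]
  have e3 : Real.pi ^ k / (∏ j ∈ Finset.range k, Real.sin (Real.pi * (((1 + j : ℕ) / (k + 1 : ℕ) : ℚ)))) /
      Real.pi ^ k = (∏ j ∈ Finset.range k, Real.sin (Real.pi * (((1 + j : ℕ) / (k + 1 : ℕ) : ℚ))))⁻¹ := by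
    have : Real.pi ^ k ≠ 0 := by positivity
    field_simp
  rw [e3]
  apply IsAlgebraic.inv
  have : ∀ s : Finset ℕ, IsAlgebraic ℚ (∏ j ∈ s, Real.sin (Real.pi * (((1 + j : ℕ) / (k + 1 : ℕ) : ℚ)))) := by
    intro s
    classical
    induction s using Finset.induction_on with
    | empty => simpa using (isAlgebraic_one : IsAlgebraic ℚ (1 : ℝ))
    | insert j s hj ih =>
      rw [Finset.prod_insert hj]
      exact (sin_rat_alg _).mul ih
  exact this _

/-- the values of `Γ` at `z + j / m`, `0 ≤ j < m`, and at `m z` are algebraic -/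
def AllAlg (m : ℕ) (z : ℂ) : Prop :=
  (∀ j : ℕ, j < m → IsAlgebraic ℚ (Complex.Gamma (z + j / m))) ∧ IsAlgebraic ℚ (Complex.Gamma (m * z))

theorem prod_alg {s : Finset ℕ} {f : ℕ → ℂ} (h : ∀ j ∈ s, IsAlgebraic ℚ (f j)) : IsAlgebraic ℚ (∏ j ∈ s, f j) := by
  classical
  induction s using Finset.induction_on with
  | empty => simpa using (isAlgebraic_one : IsAlgebraic ℚ (1 : ℂ))
  | insert j s hj ih =>
    rw [Finset.prod_insert hj]
    exact (h j (Finset.mem_insert_self _ _)).mul (ih fun i hi => h i (Finset.mem_insert_of_mem hi))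

theorem key_mult {m : ℕ} (hm : 0 < m) {z : ℂ} (hz : Irr z) (h : AllAlg m z) :
    IsAlgebraic ℚ (Complex.exp (2 * m * z * Real.log m) * ((Real.pi : ℂ) ^ (m - 1))⁻¹) := by
  obtain ⟨C, hC, h1, h2⟩ := gauss_complex m hm
  have hm0 : (m : ℂ) ≠ 0 := by exact_mod_cast hm.ne'
  have h3 := h2 (m * z)
  have e1 : ∏ j ∈ Finset.range m, (Complex.Gamma ((m * z + j) / m))⁻¹ =
      ∏ j ∈ Finset.range m, (Complex.Gamma (z + j / m))⁻¹ := by
    refine Finset.prod_congr rfl fun j _ => ?_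
    congr 2
    field_simp
  rw [e1] at h3
  have hmz : Irr (m * z) := by
    intro q hq
    apply hz (q / m)
    push_cast
    field_simp
    linear_combination hq
  have hG : Complex.Gamma (m * z) ≠ 0 := Complex.Gamma_ne_zero hmz.pole
  have h4 : IsAlgebraic ℚ ((C : ℂ) * (m : ℂ) ^ (m * z)) := by
    have e : (C : ℂ) * (m : ℂ) ^ (m * z) =
        (∏ j ∈ Finset.range m, (Complex.Gamma (z + j / m))⁻¹) * Complex.Gamma (m * z) := by
      rw [h3]
      field_simp
    rw [e]
    exact (prod_alg fun j hj => (h.1 j (Finset.mem_range.1 hj)).inv).mul h.2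
  -- the constant
  set P : ℝ := ∏ j ∈ Finset.range m, Real.Gamma ((1 + (j : ℝ)) / m) with hP
  have hP0 : P ≠ 0 := by
    intro h0
    rw [h0, mul_zero] at h1
    exact one_ne_zero h1
  have h5 := (prod_sq m hm).algebraMap (A := ℂ)
  rw [← hP] at h5
  have h6 : IsAlgebraic ℚ ((m : ℂ)) := by
    have := isAlgebraic_algebraMap (A := ℂ) (m : ℚ)
    simpa using this
  have hpi : (Real.pi : ℂ) ^ (m - 1) ≠ 0 := pow_ne_zero _ (by exact_mod_cast Real.pi_ne_zero)
  have h7 := (((h4.mul h4).mul (h6.mul h6)).mul h5)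
  have hC1 : (C : ℂ) * m * P = 1 := by exact_mod_cast h1.symm
  have e2 : Complex.exp (2 * m * z * Real.log m) = (m : ℂ) ^ (m * z) * (m : ℂ) ^ (m * z) := by
    rw [Complex.cpow_def_of_ne_zero hm0, ← Complex.exp_add]
    congr 1
    rw [← Complex.natCast_log]
    ring
  have e3 : (algebraMap ℝ ℂ) (P ^ 2 / Real.pi ^ (m - 1)) = (P : ℂ) ^ 2 * ((Real.pi : ℂ) ^ (m - 1))⁻¹ := by
    simp [div_eq_mul_inv]
  rw [e3] at h7
  rw [e2]
  have e4 : (m : ℂ) ^ (m * z) * (m : ℂ) ^ (m * z) * ((Real.pi : ℂ) ^ (m - 1))⁻¹ =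
      (C : ℂ) * (m : ℂ) ^ (m * z) * ((C : ℂ) * (m : ℂ) ^ (m * z)) * ((m : ℂ) * m) *
        ((P : ℂ) ^ 2 * ((Real.pi : ℂ) ^ (m - 1))⁻¹) := by
    calc (m : ℂ) ^ (m * z) * (m : ℂ) ^ (m * z) * ((Real.pi : ℂ) ^ (m - 1))⁻¹
        = (m : ℂ) ^ (m * z) * (m : ℂ) ^ (m * z) * ((Real.pi : ℂ) ^ (m - 1))⁻¹ * (1 : ℂ) ^ 2 := by ring
      _ = (m : ℂ) ^ (m * z) * (m : ℂ) ^ (m * z) * ((Real.pi : ℂ) ^ (m - 1))⁻¹ * (C * m * P) ^ 2 := by rw [hC1]
      _ = _ := by ring
  rw [e4]
  exact h7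

/-- Baker's theorem: an algebraic relation gives a rational one -/
theorem bak {ι : Type} [Fintype ι] (ω : ι → ℂ) (halg : ∀ i, IsAlgebraic ℚ (Complex.exp (ω i)))
    (c : ι → ℂ) (hc : ∀ i, IsAlgebraic ℚ (c i)) (hsum : ∑ i, c i * ω i = 0) (hne : ∃ i, c i ≠ 0) :
    ∃ g : ι → ℚ, ∑ i, (g i : ℂ) * ω i = 0 ∧ ∃ i, g i ≠ 0 := by
  by_contra hcon
  have hli : LinearIndependent ℚ ω := by
    by_contra h
    rw [Fintype.not_linearIndependent_iff] at h
    obtain ⟨g, hg, i, hi⟩ := h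
    refine hcon ⟨g, ?_, i, hi⟩
    rw [← hg]
    refine Finset.sum_congr rfl fun i _ => ?_
    rw [Algebra.smul_def]
    rfl
  obtain ⟨i, hi⟩ := hne
  exact hi (Pool.Agent.H297R2.baker ω halg hli c hc hsum i)

/-- **The multiplication formula.** -/
theorem part5 {m k : ℕ} (hm : 2 ≤ m) (hk : 2 ≤ k) {z w : ℂ} (hza : IsAlgebraic ℚ z) (hwa : IsAlgebraic ℚ w)
    (hz : Irr z) (hw : Irr w) (h1 : AllAlg m z) (h2 : AllAlg k w) :
    ∃ a b : ℚ, a ≠ 0 ∧ w = a * z + b := by
  have k1 := key_mult (by omega) hz h1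
  have k2 := key_mult (by omega) hw h2
  set lm : ℝ := Real.log m with hlm
  set lk : ℝ := Real.log k with hlk
  have hlm0 : (lm : ℂ) ≠ 0 := by
    have : 0 < lm := Real.log_pos (by exact_mod_cast hm)
    exact_mod_cast this.ne'
  have hlk0 : (lk : ℂ) ≠ 0 := by
    have : 0 < lk := Real.log_pos (by exact_mod_cast hk)
    exact_mod_cast this.ne'
  have natAlg : ∀ n : ℕ, IsAlgebraic ℚ (n : ℂ) := by
    intro n
    have := isAlgebraic_algebraMap (A := ℂ) (n : ℚ)
    simpa using this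
  have expm : IsAlgebraic ℚ (Complex.exp lm) := by
    rw [hlm, ← Complex.ofReal_exp, Real.exp_log (by positivity)]
    exact_mod_cast natAlg m
  have expk : IsAlgebraic ℚ (Complex.exp lk) := by
    rw [hlk, ← Complex.ofReal_exp, Real.exp_log (by positivity)]
    exact_mod_cast natAlg k
  set a : ℂ := 2 * m * ((k - 1 : ℕ) : ℂ) * z with ha
  set b : ℂ := 2 * k * ((m - 1 : ℕ) : ℂ) * w with hb
  have hpi : (Real.pi : ℂ) ≠ 0 := by exact_mod_cast Real.pi_ne_zero
  have hexp : IsAlgebraic ℚ (Complex.exp (a * lm - b * lk)) := by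
    have h3 := (k1.pow (k - 1)).mul (k2.pow (m - 1)).inv
    rw [mul_pow, mul_pow, mul_inv, ← Complex.exp_nat_mul, ← Complex.exp_nat_mul, inv_pow, inv_pow, inv_inv,
      ← pow_mul, ← pow_mul, ← Complex.exp_neg, mul_comm (k - 1) (m - 1)] at h3
    have e : Complex.exp (a * lm - b * lk) =
        Complex.exp (((k - 1 : ℕ) : ℂ) * (2 * m * z * lm)) * Complex.exp (-(((m - 1 : ℕ) : ℂ) * (2 * k * w * lk))) := by
      rw [← Complex.exp_add]
      congr 1
      rw [ha, hb]
      ring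
    rw [e]
    have hpp : (Real.pi : ℂ) ^ ((m - 1) * (k - 1)) ≠ 0 := pow_ne_zero _ hpi
    have e5 : ∀ x y p : ℂ, p ≠ 0 → x * p⁻¹ * (y * p) = x * y := by
      intro x y p hp
      field_simp
    rwa [e5 _ _ _ hpp] at h3
  have two : IsAlgebraic ℚ (2 : ℂ) := by exact_mod_cast natAlg 2
  have haalg : IsAlgebraic ℚ a := ((two.mul (natAlg m)).mul (natAlg _)).mul hza
  have hbalg : IsAlgebraic ℚ b := ((two.mul (natAlg k)).mul (natAlg _)).mul hwa
  have hairr : Irr a := by
    intro q hq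
    apply hz (q / (2 * m * (k - 1 : ℕ)))
    have e1 : (m : ℂ) ≠ 0 := by exact_mod_cast (by omega : m ≠ 0)
    have e2 : ((k - 1 : ℕ) : ℂ) ≠ 0 := by exact_mod_cast (by omega : k - 1 ≠ 0)
    push_cast
    rw [eq_div_iff (by
      refine mul_ne_zero (mul_ne_zero two_ne_zero e1) e2)]
    rw [← hq, ha]
    ring
  -- first step: the two logarithms are dependent
  obtain ⟨h, hh, hhne⟩ : ∃ h : Fin 2 → ℚ, ∑ i, (h i : ℂ) * ![(lm : ℂ), lk] i = 0 ∧ ∃ i, h i ≠ 0 := by
    obtain ⟨g, hg, hgne⟩ := bak ![(lm : ℂ), lk, a * lm - b * lk] (by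
      intro i
      fin_cases i
      · exact expm
      · exact expk
      · exact hexp) ![a, -b, -1] (by
      intro i
      fin_cases i
      · exact haalg
      · exact hbalg.neg
      · exact (isAlgebraic_one : IsAlgebraic ℚ (1 : ℂ)).neg) (by
      simp only [Fin.sum_univ_three, Matrix.cons_val_zero, Matrix.cons_val_one, Matrix.cons_val]
      ring) ⟨2, by simp⟩
    rw [Fin.sum_univ_three] at hg
    simp only [Matrix.cons_val_zero, Matrix.cons_val_one, Matrix.cons_val] at hg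
    by_cases hg2 : g 2 = 0
    · refine ⟨![g 0, g 1], ?_, ?_⟩
      · rw [Fin.sum_univ_two]
        simp only [Matrix.cons_val_zero, Matrix.cons_val_one]
        rw [hg2, Rat.cast_zero, zero_mul, add_zero] at hg
        exact hg
      · obtain ⟨i, hi⟩ := hgne
        fin_cases i
        · exact ⟨0, hi⟩
        · exact ⟨1, hi⟩
        · exact absurd hg2 hi
    · have hg2' : (g 2 : ℂ) ≠ 0 := by exact_mod_cast hg2
      refine bak ![(lm : ℂ), lk] (by
        intro i
        fin_cases i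
        · exact expm
        · exact expk) ![a + (g 0 / g 2 : ℚ), -b + (g 1 / g 2 : ℚ)] (by
        intro i
        fin_cases i
        · exact haalg.add (isAlgebraic_algebraMap (A := ℂ) (g 0 / g 2))
        · exact hbalg.neg.add (isAlgebraic_algebraMap (A := ℂ) (g 1 / g 2))) (by
        rw [Fin.sum_univ_two]
        simp only [Matrix.cons_val_zero, Matrix.cons_val_one]
        push_cast
        field_simp
        linear_combination hg) ⟨0, ?_⟩
      intro h0
      have h0' : a + ((g 0 / g 2 : ℚ) : ℂ) = 0 := h0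
      apply hairr (-(g 0 / g 2))
      push_cast at h0' ⊢
      linear_combination h0'
  rw [Fin.sum_univ_two] at hh
  simp only [Matrix.cons_val_zero, Matrix.cons_val_one] at hh
  have hh1 : h 1 ≠ 0 := by
    intro h0
    rw [h0, Rat.cast_zero, zero_mul, add_zero] at hh
    have h00 : h 0 = 0 := by
      have := (mul_eq_zero.1 hh).resolve_right hlm0
      exact_mod_cast this
    obtain ⟨i, hi⟩ := hhne
    fin_cases i
    · exact hi h00
    · exact hi h0
  have hh0 : h 0 ≠ 0 := by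
    intro h0
    rw [h0, Rat.cast_zero, zero_mul, zero_add] at hh
    have h00 : h 1 = 0 := by
      have := (mul_eq_zero.1 hh).resolve_right hlk0
      exact_mod_cast this
    exact hh1 h00
  have hh1' : (h 1 : ℂ) ≠ 0 := by exact_mod_cast hh1
  have hh0' : (h 0 : ℂ) ≠ 0 := by exact_mod_cast hh0
  set t : ℚ := -(h 0 / h 1) with ht
  have ht0 : t ≠ 0 := by
    rw [ht]
    exact neg_ne_zero.2 (div_ne_zero hh0 hh1)
  have hkt : (lk : ℂ) = t * lm := by
    rw [ht]
    push_cast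
    field_simp
    linear_combination hh
  -- second step
  obtain ⟨g, hg, hgne⟩ := bak ![(lm : ℂ), a * lm - b * lk] (by
    intro i
    fin_cases i
    · exact expm
    · exact hexp) ![a - b * t, -1] (by
    intro i
    fin_cases i
    · exact haalg.sub (hbalg.mul (isAlgebraic_algebraMap (A := ℂ) t))
    · exact (isAlgebraic_one : IsAlgebraic ℚ (1 : ℂ)).neg) (by
    rw [Fin.sum_univ_two]
    simp only [Matrix.cons_val_zero, Matrix.cons_val_one]
    rw [hkt]
    ring) ⟨1, by simp⟩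
  rw [Fin.sum_univ_two] at hg
  simp only [Matrix.cons_val_zero, Matrix.cons_val_one] at hg
  have hg1 : g 1 ≠ 0 := by
    intro h0
    rw [h0, Rat.cast_zero, zero_mul, add_zero] at hg
    have h00 : g 0 = 0 := by
      have := (mul_eq_zero.1 hg).resolve_right hlm0
      exact_mod_cast this
    obtain ⟨i, hi⟩ := hgne
    fin_cases i
    · exact hi h00
    · exact hi h0
  have hg1' : (g 1 : ℂ) ≠ 0 := by exact_mod_cast hg1
  have hfin : (g 1 : ℂ) * (a - b * t) = -g 0 := by
    apply mul_right_cancel₀ hlm0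
    rw [hkt] at hg
    linear_combination hg
  have ht0' : (t : ℂ) ≠ 0 := by exact_mod_cast ht0
  have n1 : (m : ℚ) ≠ 0 := by exact_mod_cast (by omega : m ≠ 0)
  have n2 : ((k - 1 : ℕ) : ℚ) ≠ 0 := by exact_mod_cast (by omega : k - 1 ≠ 0)
  have n3 : (k : ℚ) ≠ 0 := by exact_mod_cast (by omega : k ≠ 0)
  have n4 : ((m - 1 : ℕ) : ℚ) ≠ 0 := by exact_mod_cast (by omega : m - 1 ≠ 0)
  have n1' : (m : ℂ) ≠ 0 := by exact_mod_cast n1
  have n2' : ((k - 1 : ℕ) : ℂ) ≠ 0 := by exact_mod_cast n2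
  have n3' : (k : ℂ) ≠ 0 := by exact_mod_cast n3
  have n4' : ((m - 1 : ℕ) : ℂ) ≠ 0 := by exact_mod_cast n4
  refine ⟨(2 * m * (k - 1 : ℕ)) / (2 * k * (m - 1 : ℕ) * t), g 0 / (g 1 * (2 * k * (m - 1 : ℕ) * t)), ?_, ?_⟩
  · refine div_ne_zero ?_ ?_
    · exact mul_ne_zero (mul_ne_zero two_ne_zero n1) n2
    · exact mul_ne_zero (mul_ne_zero (mul_ne_zero two_ne_zero n3) n4) ht0
  · rw [ha, hb] at hfin
    push_cast
    rw [div_mul_eq_mul_div, div_add_div _ _ (mul_ne_zero (mul_ne_zero (mul_ne_zero two_ne_zero n3') n4') ht0')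
      (mul_ne_zero hg1' (mul_ne_zero (mul_ne_zero (mul_ne_zero two_ne_zero n3') n4') ht0')), eq_div_iff (by
        exact mul_ne_zero (mul_ne_zero (mul_ne_zero (mul_ne_zero two_ne_zero n3') n4') ht0')
          (mul_ne_zero hg1' (mul_ne_zero (mul_ne_zero (mul_ne_zero two_ne_zero n3') n4') ht0')))]
    linear_combination (-(2 * (k : ℂ) * ((m - 1 : ℕ) : ℂ) * t)) * hfin

end Pool.Agent.Run7.h205.GM
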