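import Mathlib
import Pool.Agent.W242.GG.Count

import Pool.Agent.H297R2.InBakerThm
import Pool.Agent.H297R2.BakerThm

/-!
# The Gamma function at algebraic irrational points: closed fields and the reflection formula
-/

set_option autoImplicit false

namespace Pool.Agent.Run7.h205.GM

open Complex Polynomial

/-- `C` contains the roots in `ℂ` of all nonzero polynomials with coefficients in `C` -/
def Clo (C : Subfield ℂ) : Prop :=
  ∀ (p : ℂ[X]) (z : ℂ), p ≠ 0 → (∀ n, p.coeff n ∈ C) → p.eval z = 0 → z ∈ C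

/-- the complex numbers which are algebraic over `F` -/
noncomputable def CF (F : Type) [Field F] [Algebra F ℂ] : Subfield ℂ := (algebraicClosure F ℂ).toSubfield

theorem mem_CF {F : Type} [Field F] [Algebra F ℂ] {z : ℂ} : z ∈ CF F ↔ IsAlgebraic F z :=
  mem_algebraicClosure_iff

theorem clo_CF (F : Type) [Field F] [Algebra F ℂ] : Clo (CF F) := by
  intro p z hp hc hz
  have h1 : p ∈ Polynomial.lifts (algebraMap (algebraicClosure F ℂ) ℂ) := by
    rw [Polynomial.lifts_iff_coeff_lifts]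
    intro n
    exact ⟨⟨p.coeff n, hc n⟩, rfl⟩
  obtain ⟨q, rfl⟩ := (Polynomial.mem_lifts p).1 h1
  have h2 : IsAlgebraic (algebraicClosure F ℂ) z := by
    refine ⟨q, ?_, ?_⟩
    · rintro rfl
      exact hp (by simp)
    · rw [Polynomial.aeval_def, ← Polynomial.eval_map]
      exact hz
  exact mem_CF.2 (h2.restrictScalars F)

/-- the numbers algebraic over `ℚ(θ)` -/
noncomputable def acl (θ : ℂ) : Subfield ℂ := CF (IntermediateField.adjoin ℚ {θ})

theorem mem_acl {θ z : ℂ} : z ∈ acl θ ↔ IsAlgebraic (IntermediateField.adjoin ℚ {θ}) z := mem_CF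

theorem clo_acl (θ : ℂ) : Clo (acl θ) := clo_CF _

theorem self_mem_acl (θ : ℂ) : θ ∈ acl θ := mem_acl.2 (isAlgebraic_algebraMap
  (⟨θ, IntermediateField.mem_adjoin_simple_self ℚ θ⟩ : IntermediateField.adjoin ℚ {θ}))

theorem alg_mem {C : Subfield ℂ} (hC : Clo C) {z : ℂ} (hz : IsAlgebraic ℚ z) : z ∈ C := by
  obtain ⟨p, hp, hpz⟩ := hz
  refine hC (p.map (algebraMap ℚ ℂ)) z ?_ ?_ ?_
  · rwa [Ne, Polynomial.map_eq_zero]
  · intro n
    rw [Polynomial.coeff_map]
    exact SubfieldClass.ratCast_mem C (p.coeff n)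
  · rw [Polynomial.eval_map, ← Polynomial.aeval_def]
    exact hpz

theorem acl_le {C : Subfield ℂ} (hC : Clo C) {θ : ℂ} (hθ : θ ∈ C) : acl θ ≤ C := by
  intro z hz
  obtain ⟨p, hp, hpz⟩ := mem_acl.1 hz
  have hle : ∀ x : IntermediateField.adjoin ℚ {θ}, (x : ℂ) ∈ C := by
    intro x
    have h1 : IntermediateField.adjoin ℚ {θ} ≤ (C.toIntermediateField (fun q => by
        exact SubfieldClass.ratCast_mem C q) : IntermediateField ℚ ℂ) := by
      rw [IntermediateField.adjoin_le_iff]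
      rintro _ rfl
      exact hθ
    exact h1 x.2
  refine hC (p.map (algebraMap (IntermediateField.adjoin ℚ {θ}) ℂ)) z ?_ ?_ ?_
  · rwa [Ne, Polynomial.map_eq_zero]
  · intro n
    rw [Polynomial.coeff_map]
    exact hle _
  · rw [Polynomial.eval_map, ← Polynomial.aeval_def]
    exact hpz

theorem mem_Q {z : ℂ} : z ∈ CF ℚ ↔ IsAlgebraic ℚ z := mem_CF

theorem dep_mem {t w : ℂ} (ht : Transcendental ℚ t) (h : ¬ AlgebraicIndependent ℚ ![t, w]) :
    w ∈ acl t := by
  by_contra hb
  exact h (Pool.Agent.W242.GG.algInd_pair ht (fun h1 => hb (mem_acl.2 h1)))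

theorem I_alg : IsAlgebraic ℚ Complex.I := by
  refine ⟨X ^ 2 + 1, ?_, ?_⟩
  · exact (Polynomial.monic_X_pow_add_C (1 : ℚ) two_ne_zero).ne_zero
  · simp

theorem I_mem {C : Subfield ℂ} (hC : Clo C) : Complex.I ∈ C := alg_mem hC I_alg

theorem pi_trans : Transcendental ℚ (Real.pi : ℂ) := by
  intro h
  have hpi : (2 * Real.pi * I : ℂ) ≠ 0 := by
    simp [Real.pi_ne_zero]
  have h2 : IsAlgebraic ℚ (2 * Real.pi * I : ℂ) := by
    have h3 := ((isAlgebraic_algebraMap (2 : ℚ) : IsAlgebraic ℚ ((algebraMap ℚ ℂ) 2)).mul h).mul I_alg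
    rwa [map_ofNat] at h3
  have key := Pool.Agent.H297R2.baker_inhom (ι := Fin 1) ![2 * Real.pi * I]
    (by
      intro i
      fin_cases i
      simp only [Fin.zero_eta, Matrix.cons_val_zero]
      rw [Complex.exp_two_pi_mul_I]
      exact isAlgebraic_one)
    (by
      rw [linearIndependent_unique_iff]
      simp)
    (-(2 * Real.pi * I : ℂ)) h2.neg ![1] (by
      intro i
      fin_cases i
      simpa using (isAlgebraic_one : IsAlgebraic ℚ (1 : ℂ)))
    (by simp)
  have := key.2 0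
  simp at this

/-- roots of elements of `C` -/
theorem root_mem {C : Subfield ℂ} (hC : Clo C) {z : ℂ} {n : ℕ} (hn : 0 < n) (h : z ^ n ∈ C) : z ∈ C := by
  refine hC (Polynomial.X ^ n - Polynomial.C (z ^ n)) z ?_ ?_ (by simp)
  · exact (Polynomial.monic_X_pow_sub_C _ hn.ne').ne_zero
  · intro k
    rw [Polynomial.coeff_sub, Polynomial.coeff_X_pow, Polynomial.coeff_C]
    refine C.sub_mem ?_ ?_
    · split_ifs
      · exact C.one_mem
      · exact C.zero_mem
    · split_ifs
      · exact h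
      · exact C.zero_mem

/-- `e^{q z}` is in `C` if `e^z` is in `C` -/
theorem exp_rat_mem {C : Subfield ℂ} (hC : Clo C) {z : ℂ} (h : Complex.exp z ∈ C) (q : ℚ) :
    Complex.exp (q * z) ∈ C := by
  refine root_mem hC q.pos ?_
  have h1 : Complex.exp (q * z) ^ q.den = Complex.exp z ^ q.num := by
    rw [← Complex.exp_nat_mul, ← Complex.exp_int_mul]
    congr 1
    have h2 : (q : ℂ) * q.den = q.num := by
      exact_mod_cast Rat.mul_den_eq_num q
    linear_combination z * h2
  rw [h1]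
  exact C.zpow_mem h _

theorem exp_pi_rat_mem {C : Subfield ℂ} (hC : Clo C) (q : ℚ) : Complex.exp (Real.pi * I * q) ∈ C := by
  have h1 := exp_rat_mem hC (z := Real.pi * I) (by
    rw [Complex.exp_pi_mul_I]
    exact C.neg_mem C.one_mem) q
  rwa [mul_comm] at h1

/-- the relation between `X ^ N` and `X ^ u` -/
theorem key_rat {C : Subfield ℂ} (hC : Clo C) {x c ρ : ℂ} {N u : ℕ} (hN : 0 < N) (hu : 0 < u) (hx : x ≠ 0)
    (hc : c ∈ C) (hc0 : c ≠ 0) (hρ : ρ ∈ C) (hρ0 : ρ ≠ 0)
    (h : x ^ N - (x ^ N)⁻¹ = c * (ρ * x ^ u - ρ⁻¹ * (x ^ u)⁻¹)) (hne : ¬ (N = u ∧ ρ ^ 2 = 1)) : x ∈ C := by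
  set p : ℂ[X] := Polynomial.X ^ (2 * N + u) - Polynomial.X ^ u -
    Polynomial.C (c * ρ) * Polynomial.X ^ (N + 2 * u) + Polynomial.C (c * ρ⁻¹) * Polynomial.X ^ N with hp
  have hco : ∀ n, p.coeff n = (if n = 2 * N + u then 1 else 0) - (if n = u then 1 else 0) -
      c * ρ * (if n = N + 2 * u then 1 else 0) + c * ρ⁻¹ * (if n = N then 1 else 0) := by
    intro n
    rw [hp]
    simp only [Polynomial.coeff_add, Polynomial.coeff_sub, Polynomial.coeff_C_mul, Polynomial.coeff_X_pow]
  refine hC p x ?_ ?_ ?_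
  · intro h0
    rcases lt_trichotomy N u with hlt | heq | hgt
    · have h1 := hco N
      rw [h0, Polynomial.coeff_zero, if_neg (by omega), if_neg (by omega), if_neg (by omega),
        if_pos rfl] at h1
      have h2 : c * ρ⁻¹ = 0 := by linear_combination -h1
      exact (mul_ne_zero hc0 (inv_ne_zero hρ0)) h2
    · subst heq
      have h1 := hco N
      rw [h0, Polynomial.coeff_zero, if_neg (by omega), if_pos rfl, if_neg (by omega)] at h1
      have h3 := hco (2 * N + N)
      rw [h0, Polynomial.coeff_zero, if_pos rfl, if_neg (by omega), if_pos (by omega)] at h3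
      refine hne ⟨rfl, ?_⟩
      have h4 : c * ρ = 1 := by linear_combination h3
      have h5 : c * ρ⁻¹ = 1 := by linear_combination -h1
      have h6 : c = ρ := by
        field_simp at h5
        exact h5
      rw [h6] at h4
      rw [sq]
      exact h4
    · have h1 := hco (2 * N + u)
      rw [h0, Polynomial.coeff_zero, if_pos rfl, if_neg (by omega), if_neg (by omega),
        if_neg (by omega)] at h1
      exact one_ne_zero (by linear_combination -h1)
  · intro n
    rw [hco]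
    have e : ∀ (P : Prop) [Decidable P], (if P then (1 : ℂ) else 0) ∈ C := by
      intro P _
      split_ifs
      · exact C.one_mem
      · exact C.zero_mem
    exact C.add_mem (C.sub_mem (C.sub_mem (e _) (e _)) (C.mul_mem (C.mul_mem hc hρ) (e _)))
      (C.mul_mem (C.mul_mem hc (C.inv_mem hρ)) (e _))
  · rw [hp]
    simp only [Polynomial.eval_add, Polynomial.eval_sub, Polynomial.eval_mul, Polynomial.eval_C,
      Polynomial.eval_pow, Polynomial.eval_X]
    have hxN : x ^ N ≠ 0 := pow_ne_zero _ hx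
    have hxu : x ^ u ≠ 0 := pow_ne_zero _ hx
    have e1 : x ^ (2 * N + u) = (x ^ N) ^ 2 * x ^ u := by ring
    have e2 : x ^ (N + 2 * u) = x ^ N * (x ^ u) ^ 2 := by ring
    rw [e1, e2]
    generalize x ^ N = a at *
    generalize x ^ u = b at *
    have h1 : (a - a⁻¹) * (a * b) = c * (ρ * b - ρ⁻¹ * b⁻¹) * (a * b) := by rw [h]
    have h2 : (a - a⁻¹) * (a * b) = a ^ 2 * b - b := by field_simp
    have h3 : c * (ρ * b - ρ⁻¹ * b⁻¹) * (a * b) = c * ρ * (a * b ^ 2) - c * ρ⁻¹ * a := by field_simp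
    rw [h2, h3] at h1
    linear_combination h1

/-- `w` is `z` or `-z` up to an integer -/
def Same (z w : ℂ) : Prop := ∃ n : ℤ, w = z + n ∨ w = -z + n

theorem sin_eq (z : ℂ) : Complex.sin (Real.pi * z) =
    (-(I / 2)) * (Complex.exp (Real.pi * I * z) - (Complex.exp (Real.pi * I * z))⁻¹) := by
  rw [Complex.sin, ← Complex.exp_neg]
  have e1 : -(Real.pi * z : ℂ) * I = -(Real.pi * I * z) := by ring
  have e2 : (Real.pi * z : ℂ) * I = Real.pi * I * z := by ring
  rw [e1, e2]
  ring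

/-- two points of a rational line, positive slope -/
theorem line_pos {C : Subfield ℂ} (hC : Clo C) {z w c : ℂ} {q r : ℚ} (hq : 0 < q) (hw : w = q * z + r)
    (hc : c ∈ C) (hc0 : c ≠ 0) (hs : Complex.sin (Real.pi * z) = c * Complex.sin (Real.pi * w))
    (hne : ∀ n : ℤ, w ≠ z + n) : Complex.exp (Real.pi * I * z) ∈ C := by
  set x : ℂ := Complex.exp (Real.pi * I * z / q.den) with hx
  set u : ℕ := q.num.toNat with hu
  have hnum : (0 : ℤ) < q.num := Rat.num_pos.2 hq
  have huZ : (u : ℤ) = q.num := Int.toNat_of_nonneg hnum.le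
  have hden : (q.den : ℂ) ≠ 0 := by exact_mod_cast q.den_nz
  have hxN : x ^ q.den = Complex.exp (Real.pi * I * z) := by
    rw [hx, ← Complex.exp_nat_mul]
    congr 1
    field_simp
  have hqu : (q : ℂ) = u / q.den := by
    rw [eq_div_iff hden]
    have h1 : (q : ℂ) * q.den = q.num := by exact_mod_cast Rat.mul_den_eq_num q
    rw [h1, ← huZ]
    push_cast
    rfl
  have hxu : Complex.exp (Real.pi * I * w) = Complex.exp (Real.pi * I * r) * x ^ u := by
    rw [hx, ← Complex.exp_nat_mul, ← Complex.exp_add, hw, hqu]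
    congr 1
    field_simp
    ring
  rw [← hxN]
  refine C.pow_mem ?_ _
  refine key_rat hC (c := c) (ρ := Complex.exp (Real.pi * I * r)) q.pos (by omega : 0 < u) (Complex.exp_ne_zero _)
    hc hc0 (exp_pi_rat_mem hC r) (Complex.exp_ne_zero _) ?_ ?_
  · rw [sin_eq, sin_eq, hxu, ← hxN, mul_inv] at hs
    have hI : (-(I / 2) : ℂ) ≠ 0 := by simp
    apply mul_left_cancel₀ hI
    linear_combination hs
  · rintro ⟨h1, h2⟩
    have h3 : q.num = q.den := by omega
    have h4 : q = 1 := by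
      rw [← Rat.num_div_den q, h3]
      have : (q.den : ℚ) ≠ 0 := by exact_mod_cast q.den_nz
      push_cast
      field_simp
    rw [← Complex.exp_nat_mul, Complex.exp_eq_one_iff] at h2
    obtain ⟨n, hn⟩ := h2
    have h5 : (r : ℂ) = n := by
      have hpi : (2 * Real.pi * I : ℂ) ≠ 0 := by
        simp [Real.pi_ne_zero]
      apply mul_left_cancel₀ hpi
      push_cast at hn
      linear_combination hn
    apply hne n
    rw [hw, h4, ← h5]
    push_cast
    ring

/-- two points of a rational line -/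
theorem line_two {C : Subfield ℂ} (hC : Clo C) {z w c : ℂ} {q r : ℚ} (hq : q ≠ 0) (hw : w = q * z + r)
    (hc : c ∈ C) (hc0 : c ≠ 0) (hs : Complex.sin (Real.pi * z) = c * Complex.sin (Real.pi * w))
    (hne : ¬ Same z w) : Complex.exp (Real.pi * I * z) ∈ C := by
  rcases lt_or_gt_of_ne hq with h | h
  · refine line_pos hC (w := -w) (c := -c) (q := -q) (r := -r) (neg_pos.2 h) ?_ (C.neg_mem hc)
      (neg_ne_zero.2 hc0) ?_ ?_
    · rw [hw]
      push_cast
      ring
    · rw [mul_neg, Complex.sin_neg, hs]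
      ring
    · intro n hn
      exact hne ⟨-n, Or.inr (by push_cast; linear_combination -hn)⟩
  · exact line_pos hC h hw hc hc0 hs fun n hn => hne ⟨n, Or.inl hn⟩

/-- irrational complex numbers -/
def Irr (z : ℂ) : Prop := ∀ q : ℚ, z ≠ q

theorem Irr.neg {z : ℂ} (h : Irr z) : Irr (-z) := fun q hq => h (-q) (by
  push_cast
  linear_combination -hq)

theorem Irr.pole {z : ℂ} (h : Irr z) : ∀ m : ℕ, z ≠ -m := fun m hm => h (-m) (by
  push_cast
  exact hm)

theorem Irr.ne_zero {z : ℂ} (h : Irr z) : z ≠ 0 := fun h0 => h 0 (by simpa using h0)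

theorem refl (z : ℂ) (hz : Irr z) : Complex.sin (Real.pi * z) * (-z * Complex.Gamma z * Complex.Gamma (-z)) =
    Real.pi := by
  have h1 := Complex.Gamma_mul_Gamma_one_sub z
  have h2 := Complex.Gamma_add_one (-z) (neg_ne_zero.2 hz.ne_zero)
  rw [show (-z + 1 : ℂ) = 1 - z by ring] at h2
  have h3 : Complex.sin (Real.pi * z) ≠ 0 := by
    intro h0
    rw [Complex.sin_eq_zero_iff] at h0
    obtain ⟨k, hk⟩ := h0
    apply hz k
    have : (Real.pi : ℂ) ≠ 0 := by exact_mod_cast Real.pi_ne_zero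
    apply mul_left_cancel₀ this
    push_cast
    linear_combination hk
  rw [h2, eq_div_iff h3] at h1
  linear_combination h1

/-- the reflection formula in a field -/
theorem refl_mem {C : Subfield ℂ} {z : ℂ} (hz : Irr z) (hzC : z ∈ C) (h1 : Complex.Gamma z ∈ C)
    (h2 : Complex.Gamma (-z) ∈ C) : ∃ g ∈ C, g ≠ 0 ∧ Complex.sin (Real.pi * z) = g * Real.pi := by
  have h3 := refl z hz
  have h4 : -z * Complex.Gamma z * Complex.Gamma (-z) ≠ 0 := by
    refine mul_ne_zero (mul_ne_zero (neg_ne_zero.2 hz.ne_zero) ?_) ?_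
    · exact Complex.Gamma_ne_zero hz.pole
    · exact Complex.Gamma_ne_zero hz.neg.pole
  refine ⟨(-z * Complex.Gamma z * Complex.Gamma (-z))⁻¹, C.inv_mem (C.mul_mem (C.mul_mem (C.neg_mem hzC) h1) h2),
    inv_ne_zero h4, ?_⟩
  rw [eq_comm, inv_mul_eq_iff_eq_mul₀ h4]
  linear_combination -h3

/-- `e^{πiz}` from `sin πz` -/
theorem exp_of_sin {C : Subfield ℂ} (hC : Clo C) {z : ℂ} (h : Complex.sin (Real.pi * z) ∈ C) :
    Complex.exp (Real.pi * I * z) ∈ C := by
  set x := Complex.exp (Real.pi * I * z) with hx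
  set s := Complex.sin (Real.pi * z) with hs
  have hx0 : x ≠ 0 := Complex.exp_ne_zero _
  have h1 : s = (-(I / 2)) * (x - x⁻¹) := sin_eq z
  have hI := I_mem hC
  refine hC (Polynomial.X ^ 2 - Polynomial.C (2 * I * s) * Polynomial.X - Polynomial.C 1) x ?_ ?_ ?_
  · intro h0
    have h2 := congrArg (fun p => Polynomial.coeff p 2) h0
    simp [Polynomial.coeff_one] at h2
  · intro n
    rw [Polynomial.coeff_sub, Polynomial.coeff_sub, Polynomial.coeff_C_mul, Polynomial.coeff_X_pow,
      Polynomial.coeff_X, Polynomial.coeff_C]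
    have e : ∀ (P : Prop) [Decidable P], (if P then (1 : ℂ) else 0) ∈ C := by
      intro P _
      split_ifs
      · exact C.one_mem
      · exact C.zero_mem
    have h2 : (2 : ℂ) ∈ C := by
      have := C.add_mem C.one_mem C.one_mem
      rwa [one_add_one_eq_two] at this
    exact C.sub_mem (C.sub_mem (e _) (C.mul_mem (C.mul_mem (C.mul_mem h2 hI) h) (e _))) (e _)
  · simp only [Polynomial.eval_sub, Polynomial.eval_mul, Polynomial.eval_C, Polynomial.eval_pow,
      Polynomial.eval_X]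
    rw [h1]
    field_simp
    linear_combination (x ^ 2 - 1) * Complex.I_sq

theorem sin_of_exp {C : Subfield ℂ} (hC : Clo C) {z : ℂ} (h : Complex.exp (Real.pi * I * z) ∈ C) :
    Complex.sin (Real.pi * z) ∈ C := by
  rw [sin_eq]
  have h2 : (2 : ℂ) ∈ C := by
    have := C.add_mem C.one_mem C.one_mem
    rwa [one_add_one_eq_two] at this
  exact C.mul_mem (C.neg_mem (C.div_mem (I_mem hC) h2)) (C.sub_mem h (C.inv_mem h))

/-- **Two pairs on a rational line.** -/
theorem two_pairs {C : Subfield ℂ} (hC : Clo C) {z w : ℂ} (hz : Irr z) (hw : Irr w) (hzC : z ∈ C) {q r : ℚ}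
    (hq : q ≠ 0) (hzw : w = q * z + r) (hne : ¬ Same z w)
    (h1 : Complex.Gamma z ∈ C) (h2 : Complex.Gamma (-z) ∈ C)
    (h3 : Complex.Gamma w ∈ C) (h4 : Complex.Gamma (-w) ∈ C) : (Real.pi : ℂ) ∈ C := by
  have hwC : w ∈ C := by
    rw [hzw]
    exact C.add_mem (C.mul_mem (SubfieldClass.ratCast_mem C q) hzC) (SubfieldClass.ratCast_mem C r)
  obtain ⟨g, hg, hg0, hgs⟩ := refl_mem hz hzC h1 h2
  obtain ⟨k, hk, hk0, hks⟩ := refl_mem hw hwC h3 h4
  have h5 : Complex.exp (Real.pi * I * z) ∈ C := by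
    refine line_two hC hq hzw (c := g / k) (C.div_mem hg hk) (div_ne_zero hg0 hk0) ?_ hne
    rw [hgs, hks]
    field_simp
  have h6 := sin_of_exp hC h5
  rw [hgs] at h6
  have h7 := C.mul_mem (C.inv_mem hg) h6
  rwa [inv_mul_cancel_left₀ hg0] at h7

theorem exp_of_pair {C : Subfield ℂ} (hC : Clo C) {z : ℂ} (hz : Irr z) (hzC : z ∈ C) (hpi : (Real.pi : ℂ) ∈ C)
    (h1 : Complex.Gamma z ∈ C) (h2 : Complex.Gamma (-z) ∈ C) : Complex.exp (Real.pi * I * z) ∈ C := by
  obtain ⟨g, hg, hg0, hgs⟩ := refl_mem hz hzC h1 h2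
  refine exp_of_sin hC ?_
  rw [hgs]
  exact C.mul_mem hg hpi

end Pool.Agent.Run7.h205.GM
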