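import Pool.Agent.Run7.h205.GM.Base
import Pool.Agent.W243.TD.Main

/-!
# The dimension of the exceptional space
-/

set_option autoImplicit false

namespace Pool.Agent.Run7.h205.GM

open Complex Module

/-- the elements `x` of `K` with `e^{πiλx}` in `C` -/
noncomputable def V (C : Subfield ℂ) (hC : Clo C) (K : IntermediateField ℚ ℂ) (l : ℂ) : Submodule ℚ K where
  carrier := {x | Complex.exp (Real.pi * I * (l * (x : ℂ))) ∈ C}
  add_mem' := by
    intro x y hx hy
    simp only [Set.mem_ofPred_eq] at *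
    have : (Real.pi * I * (l * ((x + y : K) : ℂ)) : ℂ) = Real.pi * I * (l * (x : ℂ)) + Real.pi * I * (l * (y : ℂ)) := by
      push_cast
      ring
    rw [this, Complex.exp_add]
    exact C.mul_mem hx hy
  zero_mem' := by
    simp only [Set.mem_ofPred_eq, ZeroMemClass.coe_zero, mul_zero, Complex.exp_zero]
    exact C.one_mem
  smul_mem' := by
    intro q x hx
    simp only [Set.mem_ofPred_eq] at *
    have h1 := exp_rat_mem hC hx q
    have : (Real.pi * I * (l * ((q • x : K) : ℂ)) : ℂ) = q * (Real.pi * I * (l * (x : ℂ))) := by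
      rw [Algebra.smul_def]
      push_cast
      have : ((algebraMap ℚ K q : K) : ℂ) = q := by simp
      rw [this]
      ring
    rw [this]
    exact h1

theorem mem_V {C : Subfield ℂ} {hC : Clo C} {K : IntermediateField ℚ ℂ} {l : ℂ} {x : K} :
    x ∈ V C hC K l ↔ Complex.exp (Real.pi * I * (l * (x : ℂ))) ∈ C := Iff.rfl

theorem K_alg {K : IntermediateField ℚ ℂ} [FiniteDimensional ℚ K] (x : K) : IsAlgebraic ℚ (x : ℂ) :=
  (Algebra.IsAlgebraic.isAlgebraic (R := ℚ) x).algebraMap (A := ℂ)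

theorem exists_irr {K : IntermediateField ℚ ℂ} [FiniteDimensional ℚ K] (h : 1 < finrank ℚ K) :
    ∃ β : K, ∀ q : ℚ, (β : ℂ) ≠ q := by
  by_contra hcon
  push Not at hcon
  have : finrank ℚ K ≤ 1 := by
    refine finrank_le_one (1 : K) fun w => ?_
    obtain ⟨q, hq⟩ := hcon w
    refine ⟨q, ?_⟩
    apply Subtype.ext
    rw [Algebra.smul_def, mul_one, hq]
    simp
  omega

/-- `x ↦ πi λ x` -/
noncomputable def phi (K : IntermediateField ℚ ℂ) (l : ℂ) : K →ₗ[ℚ] ℂ :=
  (LinearMap.mulLeft ℚ (Real.pi * I * l : ℂ)).comp K.val.toLinearMap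

theorem phi_apply {K : IntermediateField ℚ ℂ} {l : ℂ} (x : K) : phi K l x = Real.pi * I * l * (x : ℂ) := rfl

theorem phi_inj {K : IntermediateField ℚ ℂ} {l : ℂ} (hl0 : l ≠ 0) : Function.Injective (phi K l) := by
  intro x y h
  rw [phi_apply, phi_apply] at h
  have hpiI : (Real.pi * I * l : ℂ) ≠ 0 := by
    simp [Real.pi_ne_zero, hl0]
  exact Subtype.ext (mul_left_cancel₀ hpiI h)

/-- the product inequality -/
theorem dim_mul {θ : ℂ} (hθ : Transcendental ℚ θ) (hpi : (Real.pi : ℂ) ∈ acl θ) (K : IntermediateField ℚ ℂ)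
    [FiniteDimensional ℚ K] {l : ℂ} (hl : IsAlgebraic ℚ l) (hl0 : l ≠ 0) {m : ℕ} (hm : m ≤ finrank ℚ K) :
    m * finrank ℚ (V (acl θ) (clo_acl θ) K l) ≤ finrank ℚ K + m * (m - 1) := by
  set W := V (acl θ) (clo_acl θ) K l with hW
  have hC := clo_acl θ
  let b := Module.finBasis ℚ K
  let x : Fin m → K := fun i => b (Fin.castLE hm i)
  have hx : LinearIndependent ℚ x := b.linearIndependent.comp (Fin.castLE hm) (Fin.castLE_injective hm)
  have hX : finrank ℚ (Submodule.span ℚ (Set.range x)) = m := by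
    rw [finrank_span_eq_card hx, Fintype.card_fin]
  have e1 : finrank ℚ ((Submodule.span ℚ (Set.range x)).map K.val.toLinearMap) = m :=
    (Submodule.equivMapOfInjective K.val.toLinearMap K.val.injective _).finrank_eq.symm.trans hX
  have e2 : finrank ℚ (W.map (phi K l)) = finrank ℚ W :=
    (Submodule.equivMapOfInjective (phi K l) (phi_inj hl0) W).finrank_eq.symm
  have e3 : finrank ℚ ((⊤ : Submodule ℚ K).map (phi K l)) = finrank ℚ K := by
    rw [← (Submodule.equivMapOfInjective (phi K l) (phi_inj hl0) ⊤).finrank_eq, finrank_top]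
  have h := Pool.Agent.W243.TD.prod1 hθ ((Submodule.span ℚ (Set.range x)).map K.val.toLinearMap)
    (W.map (phi K l)) ((⊤ : Submodule ℚ K).map (phi K l)) ?_ ?_ ?_
  · rw [e1, e2, e3] at h
    exact h
  · rintro z ⟨w, hw, rfl⟩
    show IsAlgebraic _ _
    rw [phi_apply]
    exact mem_acl.1 ((acl θ).mul_mem ((acl θ).mul_mem ((acl θ).mul_mem hpi (I_mem hC)) (alg_mem hC hl))
      (alg_mem hC (K_alg w)))
  · rintro z ⟨w, hw, rfl⟩
    show IsAlgebraic _ _
    rw [phi_apply, mul_assoc]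
    exact mem_acl.1 (mem_V.1 hw)
  · rintro a ⟨u, hu, rfl⟩ z ⟨w, hw, rfl⟩
    refine ⟨u * w, trivial, ?_⟩
    rw [phi_apply, phi_apply]
    push_cast
    show _ = (u : ℂ) * _
    ring

/-- **The exceptional space is small.** -/
theorem dim_V {θ : ℂ} (hθ : Transcendental ℚ θ) (hpi : (Real.pi : ℂ) ∈ acl θ) (K : IntermediateField ℚ ℂ)
    [FiniteDimensional ℚ K] {l : ℂ} (hl : IsAlgebraic ℚ l) (hl0 : l ≠ 0) :
    (finrank ℚ (V (acl θ) (clo_acl θ) K l) + 1) ^ 2 ≤ 4 * finrank ℚ K + 1 := by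
  set v := finrank ℚ (V (acl θ) (clo_acl θ) K l) with hv
  have hle : v ≤ finrank ℚ K := Submodule.finrank_le _
  rcases Nat.even_or_odd' v with ⟨c, hc | hc⟩
  · have h := dim_mul hθ hpi K hl hl0 (m := c) (by omega)
    rw [← hv, hc] at h
    rw [hc]
    rcases c with _ | c
    · simp
    · simp only [Nat.add_sub_cancel] at h
      nlinarith
  · have h := dim_mul hθ hpi K hl hl0 (m := c + 1) (by omega)
    rw [← hv, hc] at h
    rw [hc]
    simp only [Nat.add_sub_cancel] at h
    nlinarith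

end Pool.Agent.Run7.h205.GM
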