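import Pool.Agent.Run7.h205.GM.Dim

/-!
# The values of the Gamma function at algebraic irrational points
-/

set_option autoImplicit false

namespace Pool.Agent.Run7.h205.GM

open Complex Module

/-- the points `a α + b` with rational `a ≠ 0` and `b` -/
def Line (α : ℂ) : Set ℂ := {z | ∃ a b : ℚ, a ≠ 0 ∧ z = a * α + b}

theorem line_irr {α z : ℂ} (h : Irr α) (hz : z ∈ Line α) : Irr z := by
  obtain ⟨a, b, ha, rfl⟩ := hz
  intro q hq
  apply h ((q - b) / a)
  have ha' : (a : ℂ) ≠ 0 := by exact_mod_cast ha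
  push_cast
  field_simp
  linear_combination hq

theorem line_alg {α z : ℂ} (h : IsAlgebraic ℚ α) (hz : z ∈ Line α) : IsAlgebraic ℚ z := by
  obtain ⟨a, b, ha, rfl⟩ := hz
  exact ((isAlgebraic_algebraMap (A := ℂ) a).mul h).add (isAlgebraic_algebraMap (A := ℂ) b)

theorem line_rel {α z w : ℂ} (hz : z ∈ Line α) (hw : w ∈ Line α) :
    ∃ q r : ℚ, q ≠ 0 ∧ w = q * z + r := by
  obtain ⟨a, b, ha, rfl⟩ := hz
  obtain ⟨c, d, hc, rfl⟩ := hw
  refine ⟨c / a, d - c / a * b, div_ne_zero hc ha, ?_⟩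
  have ha' : (a : ℂ) ≠ 0 := by exact_mod_cast ha
  push_cast
  field_simp
  ring

/-- both values at `± z` are in `C` -/
def Pair (C : Subfield ℂ) (z : ℂ) : Prop := Complex.Gamma z ∈ C ∧ Complex.Gamma (-z) ∈ C

theorem line_mem {C : Subfield ℂ} {α z : ℂ} (h : α ∈ C) (hz : z ∈ Line α) : z ∈ C := by
  obtain ⟨a, b, ha, rfl⟩ := hz
  exact C.add_mem (C.mul_mem (SubfieldClass.ratCast_mem C a) h) (SubfieldClass.ratCast_mem C b)

/-- a field without `π` contains at most one pair on each line -/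
theorem one_pair' {C : Subfield ℂ} (hC : Clo C) (hpi : (Real.pi : ℂ) ∉ C) {α : ℂ} (h : α ∈ C)
    (hi : Irr α) : ∃ z₀, ∀ z ∈ Line α, Pair C z → Same z₀ z := by
  by_cases hex : ∃ z₀ ∈ Line α, Pair C z₀
  · obtain ⟨z₀, hz₀, hp₀⟩ := hex
    refine ⟨z₀, fun z hz hp => ?_⟩
    by_contra hne
    obtain ⟨q, r, hq, hzw⟩ := line_rel hz₀ hz
    exact hpi (two_pairs hC (line_irr hi hz₀) (line_irr hi hz) (line_mem h hz₀) hq hzw hne
      hp₀.1 hp₀.2 hp.1 hp.2)
  · push Not at hex
    exact ⟨0, fun z hz hp => absurd hp (hex z hz)⟩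

theorem one_pair {C : Subfield ℂ} (hC : Clo C) (hpi : (Real.pi : ℂ) ∉ C) {α : ℂ} (h : IsAlgebraic ℚ α)
    (hi : Irr α) : ∃ z₀, ∀ z ∈ Line α, Pair C z → Same z₀ z := one_pair' hC hpi (alg_mem hC h) hi

theorem pi_notMem_Q : (Real.pi : ℂ) ∉ CF ℚ := fun h => pi_trans (mem_CF.1 h)

/-- **Part 1.** -/
theorem part1 {α : ℂ} (h : IsAlgebraic ℚ α) (hi : Irr α) :
    ∃ z₀, ∀ z ∈ Line α, ¬ Same z₀ z →
      Transcendental ℚ (Complex.Gamma z) ∨ Transcendental ℚ (Complex.Gamma (-z)) := by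
  obtain ⟨z₀, hz₀⟩ := one_pair (clo_CF ℚ) pi_notMem_Q h hi
  refine ⟨z₀, fun z hz hne => ?_⟩
  by_contra hcon
  rw [not_or] at hcon
  refine hne (hz₀ z hz ⟨mem_CF.2 ?_, mem_CF.2 ?_⟩)
  · exact not_not.1 hcon.1
  · exact not_not.1 hcon.2

/-- shifts by integers do not matter -/
theorem gamma_shift_nat {C : Subfield ℂ} {z : ℂ} (hz : Irr z) (hzC : z ∈ C) (n : ℕ) :
    Complex.Gamma (z + n) ∈ C ↔ Complex.Gamma z ∈ C := by
  induction n with
  | zero => simp
  | succ n ih =>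
    rw [← ih]
    have h1 : z + n ≠ 0 := fun h0 => hz (-n) (by push_cast; linear_combination h0)
    have h2 := Complex.Gamma_add_one (z + n) h1
    have h3 : z + n ∈ C := C.add_mem hzC (by
      have := SubfieldClass.ratCast_mem C (n : ℚ)
      push_cast at this
      exact this)
    rw [show z + ((n + 1 : ℕ) : ℂ) = z + n + 1 by push_cast; ring, h2]
    constructor
    · intro h
      have h4 := C.mul_mem (C.inv_mem h3) h
      rwa [inv_mul_cancel_left₀ h1] at h4
    · exact C.mul_mem h3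

theorem Irr.add_rat {z : ℂ} (h : Irr z) (r : ℚ) : Irr (z + r) := fun q hq => h (q - r) (by
  push_cast
  linear_combination hq)

theorem gamma_shift {C : Subfield ℂ} {z : ℂ} (hz : Irr z) (hzC : z ∈ C) (n : ℤ) :
    Complex.Gamma (z + n) ∈ C ↔ Complex.Gamma z ∈ C := by
  obtain ⟨m, rfl | rfl⟩ := n.eq_nat_or_neg
  · exact_mod_cast gamma_shift_nat hz hzC m
  · have hm : (m : ℂ) ∈ C := by
      have := SubfieldClass.ratCast_mem C (m : ℚ)
      push_cast at this
      exact this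
    have h1 : Irr (z + ((-(m : ℤ) : ℤ) : ℂ)) := by
      have := hz.add_rat (-(m : ℚ))
      push_cast at this ⊢
      exact this
    have h2 := gamma_shift_nat h1 (by
      push_cast
      exact C.add_mem hzC (C.neg_mem hm)) m
    rw [← h2]
    push_cast
    rw [neg_add_cancel_right]

/-- the complex conjugate -/
theorem conj_alg {z : ℂ} (h : IsAlgebraic ℚ z) : IsAlgebraic ℚ ((starRingEnd ℂ) z) :=
  h.algHom ((Complex.conjAe.toAlgHom).restrictScalars ℚ)

theorem conj_alg_iff {z : ℂ} : IsAlgebraic ℚ ((starRingEnd ℂ) z) ↔ IsAlgebraic ℚ z :=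
  ⟨fun h => by simpa using conj_alg h, conj_alg⟩

/-- points with half integral real part -/
theorem neg_eq_conj {z : ℂ} {k : ℤ} (h : z.re = k / 2) : -z = (starRingEnd ℂ) z + ((-k : ℤ) : ℂ) := by
  apply Complex.ext
  · simp
    linarith
  · simp

/-- **Part 2.** -/
theorem part2 {y : ℝ} (hy : IsAlgebraic ℚ y) (hy0 : y ≠ 0) :
    ∃ z₀ : ℂ, ∀ (a : ℚ) (k : ℤ), a ≠ 0 → ¬ Same z₀ (k / 2 + a * y * I) →
      Transcendental ℚ (Complex.Gamma (k / 2 + a * y * I)) := by
  have hα : IsAlgebraic ℚ ((y : ℂ) * I) := (hy.algebraMap (A := ℂ)).mul I_alg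
  have hi : Irr ((y : ℂ) * I) := by
    intro q hq
    have := congrArg Complex.im hq
    simp at this
    exact hy0 this
  obtain ⟨z₀, h⟩ := part1 hα hi
  refine ⟨z₀, fun a k ha hne => ?_⟩
  have hz : (k / 2 + a * y * I : ℂ) ∈ Line ((y : ℂ) * I) := ⟨a, k / 2, ha, by push_cast; ring⟩
  rcases h _ hz hne with h1 | h1
  · exact h1
  · have hirr := line_irr hi hz
    have halg := line_alg hα hz
    set z : ℂ := (k / 2 + a * y * I : ℂ) with hzdef
    have hre : z.re = k / 2 := by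
      rw [hzdef]
      simp
    rw [neg_eq_conj hre] at h1
    intro h2
    apply h1
    have hcirr : Irr ((starRingEnd ℂ) z) := by
      intro q hq
      apply hirr q
      have := congrArg (starRingEnd ℂ) hq
      simpa using this
    have h3 := (gamma_shift (C := CF ℚ) hcirr (mem_CF.2 (conj_alg halg)) (-k)).2 (mem_CF.2 (by
      rw [Complex.Gamma_conj]
      exact conj_alg h2))
    exact mem_CF.1 h3

theorem gamma_rel {K : IntermediateField ℚ ℂ} {l : ℂ} {x : K} {b : ℚ} :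
    (l * (x : ℂ) + b : ℂ) = l * (x : ℂ) + b := rfl

/-- outside the exceptional space the point is irrational -/
theorem irr_of_notMem {C : Subfield ℂ} (hC : Clo C) {K : IntermediateField ℚ ℂ} {l : ℂ} {x : K}
    (hx : x ∉ V C hC K l) : Irr (l * (x : ℂ)) := by
  intro q hq
  apply hx
  rw [mem_V, hq]
  exact exp_pi_rat_mem hC q

/-- the pair at `λ x + b` is not in `C` outside of the exceptional space -/
theorem not_pair {C : Subfield ℂ} (hC : Clo C) (hpi : (Real.pi : ℂ) ∈ C) {K : IntermediateField ℚ ℂ} {l : ℂ}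
    (hl : l ∈ C) {x : K} (hxC : (x : ℂ) ∈ C) (hx : x ∉ V C hC K l) (b : ℚ) : ¬ Pair C (l * (x : ℂ) + b) := by
  rintro ⟨h1, h2⟩
  have hirr : Irr (l * (x : ℂ) + b) := (irr_of_notMem hC hx).add_rat b
  have h3 := exp_of_pair hC hirr (C.add_mem (C.mul_mem hl hxC) (SubfieldClass.ratCast_mem C b)) hpi h1 h2
  apply hx
  rw [mem_V]
  have h4 := C.mul_mem h3 (C.inv_mem (exp_pi_rat_mem hC b))
  rw [← Complex.exp_neg, ← Complex.exp_add] at h4
  convert h4 using 2
  ring

theorem pi_ind {w : ℂ} (h : w ∉ acl (Real.pi : ℂ)) : AlgebraicIndependent ℚ ![(Real.pi : ℂ), w] := by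
  by_contra hcon
  exact h (dep_mem pi_trans hcon)

theorem ind_pi {w : ℂ} (h : AlgebraicIndependent ℚ ![(Real.pi : ℂ), w]) : w ∉ acl (Real.pi : ℂ) := by
  intro hw
  have h1 := mem_acl.1 hw
  rw [AlgebraicIndependent.iff_transcendental_adjoin_image (1 : Fin 2)] at h
  have h2 : (![(Real.pi : ℂ), w] '' ({1}ᶜ : Set (Fin 2))) = {(Real.pi : ℂ)} := by
    ext z
    simp only [Set.mem_image, Set.mem_compl_iff, Set.mem_singleton_iff]
    constructor
    · rintro ⟨i, hi, rfl⟩
      fin_cases i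
      · rfl
      · exact absurd rfl hi
    · rintro rfl
      exact ⟨0, by decide, rfl⟩
  have h3 := h.2
  rw [h2] at h3
  exact (IntermediateField.transcendental_adjoin_iff).2 h3 h1

theorem conj_acl_pi {w : ℂ} (h : w ∈ acl (Real.pi : ℂ)) : (starRingEnd ℂ) w ∈ acl (Real.pi : ℂ) := by
  by_contra hcon
  have h1 := pi_ind hcon
  have h2 : AlgebraicIndependent ℚ ![(Real.pi : ℂ), w] := by
    have e : (![(Real.pi : ℂ), (starRingEnd ℂ) w]) =
        ((Complex.conjAe.toAlgHom).restrictScalars ℚ : ℂ →ₐ[ℚ] ℂ) ∘ ![(Real.pi : ℂ), w] := by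
      funext i
      fin_cases i
      · simp
      · simp
    rw [e] at h1
    exact h1.of_comp _
  exact ind_pi h2 h

/-- **Part 3.** -/
theorem part3 (K : IntermediateField ℚ ℂ) [FiniteDimensional ℚ K] {l : ℂ} (hl : IsAlgebraic ℚ l) (hl0 : l ≠ 0) :
    ∃ W : Submodule ℚ K, (finrank ℚ W + 1) ^ 2 ≤ 4 * finrank ℚ K + 1 ∧ ∀ x : K, x ∉ W →
      (∀ b : ℚ, AlgebraicIndependent ℚ ![(Real.pi : ℂ), Complex.Gamma (l * x + b)] ∨
        AlgebraicIndependent ℚ ![(Real.pi : ℂ), Complex.Gamma (-(l * x + b))]) ∧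
      ((l * (x : ℂ)).re = 0 → ∀ k : ℤ,
        AlgebraicIndependent ℚ ![(Real.pi : ℂ), Complex.Gamma (l * x + k / 2)]) := by
  have hC := clo_acl (Real.pi : ℂ)
  have hpi := self_mem_acl (Real.pi : ℂ)
  refine ⟨V (acl (Real.pi : ℂ)) hC K l, dim_V pi_trans hpi K hl hl0, fun x hx => ?_⟩
  have hm : ∀ b : ℚ, AlgebraicIndependent ℚ ![(Real.pi : ℂ), Complex.Gamma (l * x + b)] ∨
        AlgebraicIndependent ℚ ![(Real.pi : ℂ), Complex.Gamma (-(l * x + b))] := by
    intro b
    by_contra hcon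
    rw [not_or] at hcon
    exact not_pair hC hpi (alg_mem hC hl) (alg_mem hC (K_alg x)) hx b
      ⟨dep_mem pi_trans hcon.1, dep_mem pi_trans hcon.2⟩
  refine ⟨hm, fun hre k => ?_⟩
  have h1 := hm (k / 2)
  push_cast at h1
  rcases h1 with h1 | h1
  · exact h1
  · apply pi_ind
    intro h2
    apply ind_pi h1
    set z : ℂ := l * (x : ℂ) + k / 2 with hz
    have hrez : z.re = k / 2 := by
      rw [hz, Complex.add_re, hre]
      simp
    rw [neg_eq_conj hrez]
    have hirr : Irr z := by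
      have := (irr_of_notMem hC hx).add_rat (k / 2)
      push_cast at this
      exact this
    have hcirr : Irr ((starRingEnd ℂ) z) := by
      intro q hq
      apply hirr q
      have := congrArg (starRingEnd ℂ) hq
      simpa using this
    have halg : IsAlgebraic ℚ z := by
      rw [hz]
      have := (hl.mul (K_alg x)).add (isAlgebraic_algebraMap (A := ℂ) ((k : ℚ) / 2))
      simpa using this
    refine (gamma_shift hcirr (alg_mem hC (conj_alg halg)) (-k)).2 ?_
    rw [Complex.Gamma_conj]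
    exact conj_acl_pi h2

end Pool.Agent.Run7.h205.GM
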